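import Mathlib

/-!
# MP_c6cae0_co: an additive Sauer-Shelah theorem

For `k >= 3` nonempty sets `A i` in `F_2^n` there is a set `I` of coordinates such that the sum of the
`A i` and the coordinate subspace of `I` is everything, and `∏ |A i| ≤ z^(k |I|) 2^(n k)`, where
`z` is the root of `z^k + 1 = 2 z` in `(0, 1)` (`z = (√5 - 1) / 2` for `k = 3`).
-/

set_option autoImplicit false

open Finset

namespace Pool.Agent.Lib.MP_c6cae0_co

variable {ι : Type} [Fintype ι]

/-- A unitriangular family of vectors: `u j` is the `j`-th unit vector plus a combination of the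
earlier unit vectors. -/
def Tri {n : ℕ} (u : Fin n → Fin n → ZMod 2) : Prop :=
  (∀ j, u j j = 1) ∧ ∀ j l, j < l → u j l = 0

/-- Every vector is a sum of elements of the `A i` and a combination of the `u j`, `j ∈ I`, for every
unitriangular family `u`. -/
def CoverI {n : ℕ} (A : ι → Finset (Fin n → ZMod 2)) (I : Finset (Fin n)) : Prop :=
  ∀ u : Fin n → Fin n → ZMod 2, Tri u → ∀ v : Fin n → ZMod 2, ∃ a : ι → (Fin n → ZMod 2),
    ∃ c : Fin n → ZMod 2, (∀ i, a i ∈ A i) ∧ v = ∑ i, a i + ∑ j ∈ I, c j • u j

theorem Tri.tail {n : ℕ} {u : Fin (n + 1) → Fin (n + 1) → ZMod 2} (h : Tri u) :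
    Tri (fun j : Fin n => Fin.tail (u j.succ)) :=
  ⟨fun j => h.1 j.succ, fun j l hjl => h.2 j.succ l.succ (Fin.succ_lt_succ_iff.mpr hjl)⟩

theorem ext_tail {n : ℕ} {v w : Fin (n + 1) → ZMod 2} (h0 : v 0 = w 0)
    (h : Fin.tail v = Fin.tail w) : v = w := by
  rw [← Fin.cons_self_tail v, ← Fin.cons_self_tail w, h0, h]

theorem tail_sum {n : ℕ} {κ : Type} (s : Finset κ) (f : κ → Fin (n + 1) → ZMod 2) :
    Fin.tail (∑ i ∈ s, f i) = ∑ i ∈ s, Fin.tail (f i) := by
  funext j
  simp [Fin.tail, Finset.sum_apply]

/-- The part of `A` with first coordinate `t`. -/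
def part {n : ℕ} (A : Finset (Fin (n + 1) → ZMod 2)) (t : ZMod 2) : Finset (Fin n → ZMod 2) :=
  univ.filter (fun x => (Fin.cons t x : Fin (n + 1) → ZMod 2) ∈ A)

theorem mem_part {n : ℕ} {A : Finset (Fin (n + 1) → ZMod 2)} {t : ZMod 2} {x : Fin n → ZMod 2} :
    x ∈ part A t ↔ (Fin.cons t x : Fin (n + 1) → ZMod 2) ∈ A := by simp [part]

theorem zmod2_cases (t : ZMod 2) : t = 0 ∨ t = 1 := by revert t; decide

theorem card_part {n : ℕ} (A : Finset (Fin (n + 1) → ZMod 2)) :
    A.card = (part A 0).card + (part A 1).card := by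
  classical
  have hinj : ∀ t : ZMod 2, Function.Injective
      (fun x : Fin n → ZMod 2 => (Fin.cons t x : Fin (n + 1) → ZMod 2)) :=
    fun t => Fin.cons_right_injective (α := fun _ => ZMod 2) t
  have h1 : A = (part A 0).image (fun x => (Fin.cons 0 x : Fin (n + 1) → ZMod 2)) ∪
      (part A 1).image (fun x => (Fin.cons 1 x : Fin (n + 1) → ZMod 2)) := by
    ext y
    simp only [mem_union, mem_image, mem_part]
    constructor
    · intro hy
      have hc : (Fin.cons (y 0) (Fin.tail y) : Fin (n + 1) → ZMod 2) = y := Fin.cons_self_tail y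
      rcases zmod2_cases (y 0) with h | h
      · left
        exact ⟨Fin.tail y, by rw [← h, hc]; exact hy, by rw [← h, hc]⟩
      · right
        exact ⟨Fin.tail y, by rw [← h, hc]; exact hy, by rw [← h, hc]⟩
    · rintro (⟨x, hx, rfl⟩ | ⟨x, hx, rfl⟩) <;> exact hx
  have h2 : Disjoint ((part A 0).image (fun x => (Fin.cons 0 x : Fin (n + 1) → ZMod 2)))
      ((part A 1).image (fun x => (Fin.cons 1 x : Fin (n + 1) → ZMod 2))) := by
    rw [Finset.disjoint_left]
    rintro y hy hy'
    obtain ⟨x, _, rfl⟩ := mem_image.mp hy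
    obtain ⟨x', _, hx'⟩ := mem_image.mp hy'
    have := congrFun hx' 0
    simp at this
  conv_lhs => rw [h1]
  rw [card_union_of_disjoint h2, card_image_of_injective _ (hinj 0),
    card_image_of_injective _ (hinj 1)]

theorem card_union_inter {n : ℕ} (A : Finset (Fin (n + 1) → ZMod 2)) :
    A.card = (part A 0 ∪ part A 1).card + (part A 0 ∩ part A 1).card := by
  rw [card_union_add_card_inter, card_part]

theorem exists_lift {n : ℕ} {A : Finset (Fin (n + 1) → ZMod 2)} {x : Fin n → ZMod 2}
    (hx : x ∈ part A 0 ∪ part A 1) : ∃ t : ZMod 2, (Fin.cons t x : Fin (n + 1) → ZMod 2) ∈ A := by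
  rcases mem_union.mp hx with h | h
  · exact ⟨0, mem_part.mp h⟩
  · exact ⟨1, mem_part.mp h⟩

theorem lift_inter {n : ℕ} {A : Finset (Fin (n + 1) → ZMod 2)} {x : Fin n → ZMod 2}
    (hx : x ∈ part A 0 ∩ part A 1) (t : ZMod 2) : (Fin.cons t x : Fin (n + 1) → ZMod 2) ∈ A := by
  rw [mem_inter] at hx
  rcases zmod2_cases t with rfl | rfl
  · exact mem_part.mp hx.1
  · exact mem_part.mp hx.2

/-- The convexity inequality. -/
theorem root_ineq {k : ℕ} {z : ℝ} (hz0 : 0 < z) (hz1 : z < 1) (hz : z ^ k + 1 = 2 * z) {w : ℝ}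
    (hw : z ≤ w) (hw1 : w ≤ 1) : w ^ k + 1 ≤ 2 * w := by
  have hc := (convexOn_pow k (𝕜 := ℝ)).2
  have h1z : 0 < 1 - z := by linarith
  set l : ℝ := (1 - w) / (1 - z) with hl
  have hl0 : 0 ≤ l := div_nonneg (by linarith) h1z.le
  have hl1 : l ≤ 1 := by rw [hl, div_le_one h1z]; linarith
  have h1 := hc (x := z) (Set.mem_Ici.mpr hz0.le) (y := 1) (Set.mem_Ici.mpr zero_le_one)
    (a := l) (b := 1 - l) hl0 (by linarith) (by ring)
  have h2 : l * z + (1 - l) * 1 = w := by
    have : l * (1 - z) = 1 - w := by rw [hl]; field_simp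
    nlinarith
  simp only [smul_eq_mul] at h1
  rw [h2, one_pow] at h1
  nlinarith

theorem root_ineq' {k : ℕ} (hk : k ≠ 0) {z : ℝ} (hz0 : 0 < z) (hz1 : z < 1)
    (hz : z ^ k + 1 = 2 * z) {m : ℝ} (hm : z ^ k ≤ m) (hm1 : m ≤ 1) : (1 + m) ^ k ≤ 2 ^ k * m := by
  have hm0 : 0 ≤ m := (pow_nonneg hz0.le k).trans hm
  set w : ℝ := m ^ ((k : ℝ)⁻¹) with hw
  have hwk : w ^ k = m := Real.rpow_inv_natCast_pow hm0 hk
  have hw0 : 0 ≤ w := Real.rpow_nonneg hm0 _
  have hzw : z ≤ w := by
    by_contra h
    push Not at h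
    have : w ^ k < z ^ k := pow_lt_pow_left₀ h hw0 hk
    rw [hwk] at this
    linarith
  have hw1 : w ≤ 1 := by
    by_contra h
    push Not at h
    have : 1 < w ^ k := one_lt_pow₀ h hk
    rw [hwk] at this
    linarith
  have h1 := root_ineq hz0 hz1 hz hzw hw1
  rw [hwk] at h1
  calc (1 + m) ^ k ≤ (2 * w) ^ k := pow_le_pow_left₀ (by linarith) (by linarith) k
    _ = 2 ^ k * m := by rw [mul_pow, hwk]

open Classical in
theorem main [Nonempty ι] {z : ℝ} (hz0 : 0 < z) (hz1 : z < 1)
    (hz : z ^ (Fintype.card ι) + 1 = 2 * z) (n : ℕ) (A : ι → Finset (Fin n → ZMod 2))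
    (hA : ∀ i, (A i).Nonempty) :
    ∃ I : Finset (Fin n), CoverI A I ∧
      ∏ i, ((A i).card : ℝ) ≤ z ^ (Fintype.card ι * I.card) * (2 ^ n) ^ (Fintype.card ι) := by
  have hk : Fintype.card ι ≠ 0 := Fintype.card_ne_zero
  induction n with
  | zero =>
    refine ⟨∅, ?_, ?_⟩
    · intro u _ v
      exact ⟨fun i => (hA i).choose, 0, fun i => (hA i).choose_spec, Subsingleton.elim _ _⟩
    · have : ∀ i, ((A i).card : ℝ) ≤ 1 := by
        intro i
        have h1 : (A i).card ≤ 1 := by
          refine (card_le_univ _).trans ?_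
          simp
        exact_mod_cast h1
      have h2 : ∏ i, ((A i).card : ℝ) ≤ ∏ i : ι, (1 : ℝ) :=
        prod_le_prod (fun i _ => Nat.cast_nonneg _) (fun i _ => this i)
      simpa using h2
  | succ n ih =>
    set k := Fintype.card ι with hkdef
    set U : ι → Finset (Fin n → ZMod 2) := fun i => part (A i) 0 ∪ part (A i) 1 with hU
    set W : ι → Finset (Fin n → ZMod 2) := fun i => part (A i) 0 ∩ part (A i) 1 with hW
    have hcard : ∀ i, ((A i).card : ℝ) = (U i).card + (W i).card := by
      intro i
      exact_mod_cast card_union_inter (A i)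
    have hUne : ∀ i, (U i).Nonempty := by
      intro i
      obtain ⟨y, hy⟩ := hA i
      refine ⟨Fin.tail y, ?_⟩
      have hc : (Fin.cons (y 0) (Fin.tail y) : Fin (n + 1) → ZMod 2) = y := Fin.cons_self_tail y
      rw [hU, mem_union, mem_part, mem_part]
      rcases zmod2_cases (y 0) with h | h
      · left; rw [← h, hc]; exact hy
      · right; rw [← h, hc]; exact hy
    have hU0 : ∀ i, 0 < ((U i).card : ℝ) := fun i => by exact_mod_cast (hUne i).card_pos
    have hWU : ∀ i, ((W i).card : ℝ) ≤ (U i).card := by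
      intro i
      exact_mod_cast card_le_card (inter_subset_union)
    set x : ι → ℝ := fun i => ((W i).card : ℝ) / (U i).card with hx
    have hxW : ∀ i, ((W i).card : ℝ) = x i * (U i).card := by
      intro i
      rw [hx]
      field_simp [(hU0 i).ne']
    have hx0 : ∀ i, 0 ≤ x i := fun i => div_nonneg (Nat.cast_nonneg _) (hU0 i).le
    have hx1 : ∀ i, x i ≤ 1 := fun i => (div_le_one (hU0 i)).mpr (hWU i)
    obtain ⟨i0, -, hi0⟩ := exists_max_image univ x univ_nonempty
    have hprod : ∏ i, ((A i).card : ℝ) ≤ (1 + x i0) ^ k * ∏ i, ((U i).card : ℝ) := by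
      have h1 : ∏ i, ((A i).card : ℝ) = (∏ i, (1 + x i)) * ∏ i, ((U i).card : ℝ) := by
        rw [← prod_mul_distrib]
        apply prod_congr rfl
        intro i _
        rw [hcard, hxW]; ring
      rw [h1]
      apply mul_le_mul_of_nonneg_right _ (prod_nonneg fun i _ => (hU0 i).le)
      calc ∏ i, (1 + x i) ≤ ∏ i : ι, (1 + x i0) :=
            prod_le_prod (fun i _ => by linarith [hx0 i]) (fun i hi => by linarith [hi0 i hi])
        _ = (1 + x i0) ^ k := by rw [prod_const, card_univ]
    by_cases hm : x i0 < z ^ k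
    · -- project everything
      obtain ⟨I, hI, hIc⟩ := ih U hUne
      refine ⟨insert 0 (I.map (Fin.succEmb n)), ?_, ?_⟩
      · intro u hu v
        obtain ⟨a, c, ha, hav⟩ := hI _ hu.tail (Fin.tail v)
        choose t ht using fun i => exists_lift (ha i)
        have hu0 : u 0 = Fin.cons 1 0 := by
          apply ext_tail
          · rw [hu.1 0]; rfl
          · funext j
            exact hu.2 0 j.succ (Fin.succ_pos j)
        have h0 : (0 : Fin (n + 1)) ∉ I.map (Fin.succEmb n) := by
          intro h
          obtain ⟨j, _, hj⟩ := mem_map.mp h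
          exact Fin.succ_ne_zero j hj
        set r : ZMod 2 := v 0 - (∑ i, t i + ∑ j ∈ I, c j * u j.succ 0) with hr
        refine ⟨fun i => Fin.cons (t i) (a i), Fin.cons r c, ht, ?_⟩
        rw [sum_insert h0, sum_map]
        apply ext_tail
        · simp only [Pi.add_apply, Finset.sum_apply, Fin.cons_zero, Pi.smul_apply, hu0,
            Fin.coe_succEmb, Fin.cons_succ, smul_eq_mul, mul_one]
          rw [hr]; ring
        · rw [hav]
          funext l
          simp [Fin.tail, Finset.sum_apply, hu0]
      · have hcI : (insert 0 (I.map (Fin.succEmb n))).card = I.card + 1 := by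
          rw [card_insert_of_notMem, card_map]
          intro h
          obtain ⟨j, _, hj⟩ := mem_map.mp h
          exact Fin.succ_ne_zero j hj
        rw [hcI]
        have h2 : (1 + x i0) ^ k ≤ (2 * z) ^ k :=
          pow_le_pow_left₀ (by linarith [hx0 i0]) (by linarith) k
        calc ∏ i, ((A i).card : ℝ) ≤ (1 + x i0) ^ k * ∏ i, ((U i).card : ℝ) := hprod
          _ ≤ (2 * z) ^ k * (z ^ (k * I.card) * (2 ^ n) ^ k) :=
              mul_le_mul h2 hIc (prod_nonneg fun i _ => (hU0 i).le) (by positivity)
          _ = z ^ (k * (I.card + 1)) * (2 ^ (n + 1)) ^ k := by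
              rw [mul_pow, mul_add, mul_one, pow_add, pow_succ, mul_pow]; ring
    · -- toggle with the set i0
      push Not at hm
      have hW0 : 0 < ((W i0).card : ℝ) := by
        rw [hxW]
        have : 0 < z ^ k := pow_pos hz0 k
        exact mul_pos (by linarith) (hU0 i0)
      have hWne : (W i0).Nonempty := by
        rw [← card_pos]; exact_mod_cast hW0
      obtain ⟨I, hI, hIc⟩ := ih (Function.update U i0 (W i0)) (by
        intro i
        by_cases h : i = i0
        · subst h; rw [Function.update_self]; exact hWne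
        · rw [Function.update_of_ne h]; exact hUne i)
      refine ⟨I.map (Fin.succEmb n), ?_, ?_⟩
      · intro u hu v
        obtain ⟨a, c, ha, hav⟩ := hI _ hu.tail (Fin.tail v)
        have ha0 : a i0 ∈ W i0 := by
          have := ha i0
          rwa [Function.update_self] at this
        have haU : ∀ i, a i ∈ U i := by
          intro i
          by_cases h : i = i0
          · subst h
            exact inter_subset_union ha0
          · have := ha i
            rwa [Function.update_of_ne h] at this
        choose t ht using fun i => exists_lift (haU i)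
        set s : ZMod 2 := v 0 - (∑ i ∈ univ.erase i0, t i + ∑ j ∈ I, c j * u j.succ 0) with hs
        refine ⟨fun i => Fin.cons (Function.update t i0 s i) (a i), Fin.cons 0 c, ?_, ?_⟩
        · intro i
          by_cases h : i = i0
          · subst h
            show (Fin.cons (Function.update t i s i) (a i) : Fin (n + 1) → ZMod 2) ∈ A i
            rw [Function.update_self]
            exact lift_inter ha0 s
          · show (Fin.cons (Function.update t i0 s i) (a i) : Fin (n + 1) → ZMod 2) ∈ A i
            rw [Function.update_of_ne h]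
            exact ht i
        · rw [sum_map]
          apply ext_tail
          · simp only [Pi.add_apply, Finset.sum_apply, Fin.cons_zero, Pi.smul_apply,
              Fin.coe_succEmb, Fin.cons_succ, smul_eq_mul]
            rw [← add_sum_erase univ _ (mem_univ i0), Function.update_self]
            have : ∑ i ∈ univ.erase i0, Function.update t i0 s i = ∑ i ∈ univ.erase i0, t i := by
              apply sum_congr rfl
              intro i hi
              rw [Function.update_of_ne (ne_of_mem_erase hi)]
            rw [this, hs]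
            ring
          · rw [hav]
            funext l
            simp [Fin.tail, Finset.sum_apply]
      · rw [card_map]
        have h3 : ∏ i, ((Function.update U i0 (W i0) i).card : ℝ) =
            x i0 * ∏ i, ((U i).card : ℝ) := by
          rw [← mul_prod_erase univ _ (mem_univ i0), Function.update_self,
            ← mul_prod_erase univ (fun i => ((U i).card : ℝ)) (mem_univ i0), hxW]
          have : ∏ i ∈ univ.erase i0, ((Function.update U i0 (W i0) i).card : ℝ) =
              ∏ i ∈ univ.erase i0, ((U i).card : ℝ) := by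
            apply prod_congr rfl
            intro i hi
            rw [Function.update_of_ne (ne_of_mem_erase hi)]
          rw [this]; ring
        have h4 := root_ineq' hk hz0 hz1 hz hm (hx1 i0)
        calc ∏ i, ((A i).card : ℝ) ≤ (1 + x i0) ^ k * ∏ i, ((U i).card : ℝ) := hprod
          _ ≤ (2 ^ k * x i0) * ∏ i, ((U i).card : ℝ) :=
              mul_le_mul_of_nonneg_right h4 (prod_nonneg fun i _ => (hU0 i).le)
          _ = 2 ^ k * ∏ i, ((Function.update U i0 (W i0) i).card : ℝ) := by rw [h3]; ring
          _ ≤ 2 ^ k * (z ^ (k * I.card) * (2 ^ n) ^ k) :=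
              mul_le_mul_of_nonneg_left hIc (by positivity)
          _ = z ^ (k * I.card) * (2 ^ (n + 1)) ^ k := by
              rw [pow_succ, mul_pow]; ring

end Pool.Agent.Lib.MP_c6cae0_co

namespace Pool.Agent.Lib.MP_c6cae0_co

/-- Coordinates of an element of the span of the first basis vectors. -/
theorem repr_zero_of_mem {n : ℕ} (b : Module.Basis (Fin n) (ZMod 2) (Fin n → ZMod 2)) (j : Fin n)
    {x : Fin n → ZMod 2} (hx : x ∈ Submodule.span (ZMod 2) (b '' {l | l < j})) {l : Fin n}
    (hl : j ≤ l) : b.equivFun x l = 0 := by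
  induction hx using Submodule.span_induction with
  | mem x hx =>
    obtain ⟨m, hm, rfl⟩ := hx
    rw [Module.Basis.equivFun_self]
    refine if_neg ?_
    rintro rfl
    have hm' : m < j := hm
    exact absurd hm' (not_lt.mpr hl)
  | zero => simp
  | add x y _ _ hx hy => rw [map_add, Pi.add_apply, hx, hy, add_zero]
  | smul c x _ hx => rw [map_smul, Pi.smul_apply, hx, smul_zero]

theorem basis_main {k : ℕ} (hk : 0 < k) {z : ℝ} (hz0 : 0 < z) (hz1 : z < 1)
    (hz : z ^ k + 1 = 2 * z) (n : ℕ) (b : Module.Basis (Fin n) (ZMod 2) (Fin n → ZMod 2))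
    (A : Fin k → Finset (Fin n → ZMod 2)) (hA : ∀ i, (A i).Nonempty) :
    ∃ I : Finset (Fin n), ∏ i, ((A i).card : ℝ) / 2 ^ n ≤ z ^ (k * I.card) ∧
      ∀ u : Fin n → (Fin n → ZMod 2),
        (∀ j, u j - b j ∈ Submodule.span (ZMod 2) (b '' {l | l < j})) →
        ∀ v : Fin n → ZMod 2, ∃ a : Fin k → (Fin n → ZMod 2),
          (∀ i, a i ∈ A i) ∧ v - ∑ i, a i ∈ Submodule.span (ZMod 2) (u '' I) := by
  classical
  have : Nonempty (Fin k) := ⟨⟨0, hk⟩⟩
  set e := b.equivFun with he
  obtain ⟨I, hI, hIc⟩ := main (ι := Fin k) hz0 hz1 (by rwa [Fintype.card_fin]) n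
    (fun i => (A i).map e.toEquiv.toEmbedding) (fun i => (hA i).map)
  refine ⟨I, ?_, ?_⟩
  · simp only [card_map, Fintype.card_fin] at hIc
    rw [prod_div_distrib, prod_const, card_univ, Fintype.card_fin,
      div_le_iff₀ (by positivity)]
    exact hIc
  · intro u hu v
    have hTri : Tri (fun j => e (u j)) := by
      have h1 : ∀ j l, j ≤ l → e (u j) l = e (b j) l := by
        intro j l hjl
        have h2 := repr_zero_of_mem b j (hu j) hjl
        rw [map_sub, Pi.sub_apply, sub_eq_zero] at h2
        exact h2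
      constructor
      · intro j
        show e (u j) j = 1
        rw [h1 j j le_rfl, he, Module.Basis.equivFun_self, if_pos rfl]
      · intro j l hjl
        show e (u j) l = 0
        rw [h1 j l hjl.le, he, Module.Basis.equivFun_self, if_neg hjl.ne]
    obtain ⟨a, c, ha, hv⟩ := hI _ hTri (e v)
    refine ⟨fun i => e.symm (a i), ?_, ?_⟩
    · intro i
      obtain ⟨x, hx, hxa⟩ := mem_map.mp (ha i)
      have : e.symm (a i) = x := by
        rw [← hxa]
        exact e.symm_apply_apply x
      show e.symm (a i) ∈ A i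
      rw [this]
      exact hx
    · have h1 : v - ∑ i, e.symm (a i) = ∑ j ∈ I, c j • u j := by
        apply e.injective
        rw [map_sub, map_sum, map_sum, hv]
        simp
      rw [h1]
      refine Submodule.sum_mem _ fun j hj => Submodule.smul_mem _ _ (Submodule.subset_span ?_)
      exact ⟨j, hj, rfl⟩

end Pool.Agent.Lib.MP_c6cae0_co
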